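import Pool.Agent.Lib.MP_00d8cd_co.Walks

set_option autoImplicit false
set_option linter.unusedSectionVars false

/-!
# Branches of a depth-first search and their greedy walks
-/

namespace Pool.Agent.Lib.MP_00d8cd_co

open Finset

variable {V : Type*} [Fintype V] [DecidableEq V] (G : SimpleGraph V) [DecidableRel G.Adj]

/-- The number of neighbours of `v` in `A`. -/
def nb (v : V) (A : Finset V) : ℕ := (A.filter (G.Adj v)).card

/-- The weight of a set of vertices. -/
def wt (A : Finset V) : ℕ := ∑ u ∈ A, (G.degree u + 2 * nb G u A)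

/-- `K` is closed under adjacency inside `A`. -/
def ClosedIn (K A : Finset V) : Prop := ∀ u ∈ K, ∀ w ∈ A, G.Adj u w → w ∈ K

/-- `C` is connected. -/
def Conn (C : Finset V) : Prop := ∀ K ⊆ C, K.Nonempty → ClosedIn G K C → K = C

/-- Every component of `A` is attached to `v`. -/
def Att (A : Finset V) (v : V) : Prop := ∀ K ⊆ A, K.Nonempty → ClosedIn G K A → ∃ u ∈ K, G.Adj u v

theorem wt_empty : wt G ∅ = 0 := by simp [wt]

theorem nb_insert_of_adj {u v : V} {A : Finset V} (hv : v ∉ A) (h : G.Adj u v) :
    nb G u (insert v A) = nb G u A + 1 := by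
  unfold nb
  rw [filter_insert, if_pos h, card_insert_of_notMem]
  intro h'
  exact hv (mem_filter.mp h').1

theorem nb_insert_of_not_adj {u v : V} {A : Finset V} (h : ¬ G.Adj u v) :
    nb G u (insert v A) = nb G u A := by
  unfold nb
  rw [filter_insert, if_neg h]

theorem wt_insert {v : V} {A : Finset V} (hv : v ∉ A) :
    wt G (insert v A) = wt G A + G.degree v + 4 * nb G v A := by
  unfold wt
  rw [sum_insert hv, nb_insert_of_not_adj G (SimpleGraph.irrefl G)]
  have h1 : ∀ u ∈ A, G.degree u + 2 * nb G u (insert v A) =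
      (G.degree u + 2 * nb G u A) + 2 * (if G.Adj v u then 1 else 0) := by
    intro u hu
    by_cases h : G.Adj u v
    · rw [nb_insert_of_adj G hv h, if_pos h.symm]
      ring
    · rw [nb_insert_of_not_adj G h, if_neg (fun h' => h h'.symm)]
      ring
  rw [sum_congr rfl h1, sum_add_distrib, ← mul_sum, sum_boole]
  simp only [Nat.cast_id]
  unfold nb
  ring

theorem nb_union {u : V} {A B : Finset V} (h : Disjoint A B) :
    nb G u (A ∪ B) = nb G u A + nb G u B := by
  unfold nb
  rw [filter_union, card_union_of_disjoint]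
  exact disjoint_filter_filter h

theorem nb_eq_zero {u : V} {A : Finset V} (h : ∀ w ∈ A, ¬ G.Adj u w) : nb G u A = 0 := by
  unfold nb
  rw [card_eq_zero, filter_eq_empty_iff]
  exact fun w hw => h w hw

theorem wt_split {C A : Finset V} (hCA : C ⊆ A) (hcl : ClosedIn G C A) :
    wt G A = wt G C + wt G (A \ C) := by
  have hA : C ∪ (A \ C) = A := union_sdiff_of_subset hCA
  have hd : Disjoint C (A \ C) := disjoint_sdiff
  have e1 : wt G A = ∑ u ∈ C ∪ (A \ C), (G.degree u + 2 * nb G u A) := by
    rw [hA]; rfl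
  rw [e1, sum_union hd]
  unfold wt
  congr 1
  · refine sum_congr rfl (fun u hu => ?_)
    have : nb G u A = nb G u C := by
      conv_lhs => rw [← hA]
      rw [nb_union G hd, nb_eq_zero G (A := A \ C), add_zero]
      intro w hw hadj
      exact (mem_sdiff.mp hw).2 (hcl u hu w (mem_sdiff.mp hw).1 hadj)
    rw [this]
  · refine sum_congr rfl (fun u hu => ?_)
    have : nb G u A = nb G u (A \ C) := by
      conv_lhs => rw [← hA]
      rw [nb_union G hd, nb_eq_zero G (A := C), zero_add]
      intro w hw hadj
      exact (mem_sdiff.mp hu).2 (hcl w hw u (mem_sdiff.mp hu).1 hadj.symm)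
    rw [this]

/-- The claim about a branch `C` with top vertex `c`. -/
def Branch (C : Finset V) (c : V) : Prop :=
  ∃ (W : G.Walk c c) (X : ℕ), (∀ u, u ∉ C → inc W u = 0) ∧
    (∀ a ∈ C, ∀ b ∈ C, G.Adj a b →
      G.degree a + inc W a + (if a = c then 2 * X else 0) ≠
        G.degree b + inc W b + (if b = c then 2 * X else 0)) ∧
    (X = 0 → W.length = 0) ∧ (X = 0 → C = {c}) ∧
    H X (G.degree c + inc W c) ((wt G C : ℤ) + 1 - 4 * X - 2 * W.length)

/-- The claim about a set `A` all of whose components are attached to `v`. -/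
def Attached (A : Finset V) (v : V) : Prop :=
  ∃ (W : G.Walk v v) (L : List (ℕ × ℕ × ℤ)),
    (∀ u, u ∉ A → u ≠ v → inc W u = 0) ∧
    inc W v = 2 * (L.map (fun t => t.1)).sum ∧
    (∀ a ∈ A, ∀ b ∈ A, G.Adj a b → G.degree a + inc W a ≠ G.degree b + inc W b) ∧
    ((wt G A : ℤ) - 2 * W.length = (L.map (fun t => t.2.2)).sum - L.length) ∧
    (∀ t ∈ L, H t.1 t.2.1 t.2.2 ∧
      ∃ c ∈ A, G.Adj v c ∧ G.degree c + inc W c = t.2.1 + 2 * t.1) ∧
    L.length ≤ nb G v A ∧ (L = [] → A = ∅) ∧
    ((L.map (fun t => t.1)).sum = 0 → ∀ a ∈ A, ∀ b ∈ A, ¬ G.Adj a b)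

variable {G}

theorem att_erase {C : Finset V} {c : V} (hC : Conn G C) (hc : c ∈ C) : Att G (C.erase c) c := by
  intro K hK hne hcl
  by_contra hno
  push Not at hno
  have hKC : K ⊆ C := hK.trans (erase_subset _ _)
  have hcK : c ∉ K := fun h => (mem_erase.mp (hK h)).1 rfl
  have : K = C := by
    apply hC K hKC hne
    intro u hu w hw hadj
    by_cases hwc : w = c
    · subst hwc
      exact absurd hadj (hno u hu)
    · exact hcl u hu w (mem_erase.mpr ⟨hwc, hw⟩) hadj
  exact hcK (this ▸ hc)

theorem branch_of_attached {C : Finset V} {c : V} (hc : c ∈ C) (hdeg : nb G c (C.erase c) < G.degree c)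
    (h : Attached G (C.erase c) c) : Branch G C c := by
  obtain ⟨W, L, ha, hb, hprop, hw, hL, hlen, hnil, hind⟩ := h
  set A := C.erase c with hA
  have hcA : c ∉ A := notMem_erase c C
  have hCA : insert c A = C := insert_erase hc
  obtain ⟨X, hX0, hX1, hXB, hXH⟩ := step L (G.degree c) (nb G c A)
    ((A.filter (G.Adj c)).image (fun u => G.degree u + inc W u)) card_image_le hdeg
    (by
      intro t ht
      obtain ⟨h1, u, hu, hadj, he⟩ := hL t ht
      refine ⟨h1, ?_⟩
      rw [← he]
      exact mem_image_of_mem _ (mem_filter.mpr ⟨hu, hadj⟩)) hlen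
    (by
      intro h
      rw [hnil h]
      simp [nb])
  have hXA : X = 0 → A = ∅ := by
    intro h
    apply hnil
    by_contra hne
    have := hX1 hne
    omega
  have hD : ∀ b ∈ A, G.Adj c b →
      G.degree c + inc W c + 2 * X ≠ G.degree b + inc W b := by
    intro b hb' hadj he
    apply hXB
    rw [← hb, he]
    exact mem_image_of_mem _ (mem_filter.mpr ⟨hb', hadj⟩)
  refine ⟨W, X, ?_, ?_, ?_, ?_, ?_⟩
  · intro u hu
    have huc : u ≠ c := fun h => hu (h ▸ hc)
    exact ha u (fun h => hu (mem_of_mem_erase h)) huc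
  · intro a haC b hbC hadj
    by_cases hac : a = c
    · subst hac
      have hba : b ≠ a := hadj.ne'
      rw [if_pos rfl, if_neg hba, add_zero]
      exact hD b (mem_erase.mpr ⟨hba, hbC⟩) hadj
    · by_cases hbc : b = c
      · subst hbc
        rw [if_pos rfl, if_neg hac, add_zero]
        exact (hD a (mem_erase.mpr ⟨hac, haC⟩) hadj.symm).symm
      · rw [if_neg hac, if_neg hbc]
        exact hprop a (mem_erase.mpr ⟨hac, haC⟩) b (mem_erase.mpr ⟨hbc, hbC⟩) hadj
  · intro h
    have h1 := hXA h
    have h2 : L = [] := by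
      rw [← List.length_eq_zero_iff]
      have : nb G c A = 0 := by rw [h1]; simp [nb]
      omega
    have h3 : wt G A = 0 := by rw [h1]; exact wt_empty G
    rw [h2, h3] at hw
    simp only [List.map_nil, List.sum_nil, List.length_nil] at hw
    omega
  · intro h
    rw [← hCA, hXA h]
    rfl
  · rw [← hCA, wt_insert G hcA, hb]
    convert hXH using 1
    push_cast
    linarith

theorem exists_component {A : Finset V} (hA : A.Nonempty) :
    ∃ C ⊆ A, C.Nonempty ∧ ClosedIn G C A ∧ Conn G C := by
  classical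
  let F := A.powerset.filter (fun K => K.Nonempty ∧ ClosedIn G K A)
  have hF : F.Nonempty := ⟨A, by
    simp only [F, mem_filter, mem_powerset]
    exact ⟨Subset.refl _, hA, fun u _ w hw _ => hw⟩⟩
  obtain ⟨C, hC, hmin⟩ := exists_min_image F (fun K => K.card) hF
  simp only [F, mem_filter, mem_powerset] at hC hmin
  refine ⟨C, hC.1, hC.2.1, hC.2.2, ?_⟩
  intro K hK hne hcl
  apply eq_of_subset_of_card_le hK
  apply hmin
  refine ⟨hK.trans hC.1, hne, ?_⟩
  intro u hu w hw hadj
  exact hcl u hu w (hC.2.2 u (hK hu) w hw hadj) hadj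

theorem attached_of_att : ∀ (n : ℕ) (A : Finset V) (v : V), A.card ≤ n → v ∉ A → Att G A v →
    Attached G A v := by
  intro n
  induction n with
  | zero =>
    intro A v hn hv hatt
    have : A = ∅ := by
      rw [← card_eq_zero]
      omega
    subst this
    refine ⟨SimpleGraph.Walk.nil, [], ?_, ?_, ?_, ?_, ?_, ?_, ?_, ?_⟩ <;> simp [inc_nil, wt_empty]
  | succ n ih =>
    intro A v hn hv hatt
    rcases A.eq_empty_or_nonempty with hA | hA
    · subst hA
      exact ih ∅ v (by simp) hv hatt
    obtain ⟨C, hCA, hCne, hCcl, hCconn⟩ := exists_component (G := G) hA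
    obtain ⟨c, hc, hadj⟩ := hatt C hCA hCne hCcl
    have hvC : v ∉ C := fun h => hv (hCA h)
    have hvc : v ≠ c := fun h => hvC (h ▸ hc)
    have hcard : C.card ≤ n + 1 := le_trans (card_le_card hCA) hn
    have hB : Branch G C c := by
      apply branch_of_attached hc
      · unfold nb
        rw [← SimpleGraph.card_neighborFinset_eq_degree]
        apply card_lt_card
        rw [ssubset_iff_of_subset]
        · refine ⟨v, ?_, ?_⟩
          · rw [SimpleGraph.mem_neighborFinset]
            exact hadj
          · intro h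
            exact hvC (mem_of_mem_erase (mem_filter.mp h).1)
        · intro x hx
          rw [SimpleGraph.mem_neighborFinset]
          exact (mem_filter.mp hx).2
      · apply ih
        · rw [card_erase_of_mem hc]
          omega
        · exact notMem_erase c C
        · exact att_erase hCconn hc
    obtain ⟨W₁, X₁, h1a, h1p, h1l, h1C, h1H⟩ := hB
    have hlt : (A \ C).card < A.card := by
      apply card_lt_card
      rw [ssubset_iff_of_subset sdiff_subset]
      obtain ⟨x, hx⟩ := hCne
      exact ⟨x, hCA hx, fun h => (mem_sdiff.mp h).2 hx⟩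
    have hA2 : Attached G (A \ C) v := by
      apply ih
      · omega
      · intro h
        exact hv (mem_sdiff.mp h).1
      · intro K hK hKne hKcl
        apply hatt K (hK.trans sdiff_subset) hKne
        intro u hu w hw huw
        apply hKcl u hu w _ huw
        rw [mem_sdiff]
        refine ⟨hw, fun hwC => ?_⟩
        have := hCcl w hwC u (mem_sdiff.mp (hK hu)).1 huw.symm
        exact (mem_sdiff.mp (hK hu)).2 this
    obtain ⟨W₂, L₂, h2a, h2b, h2p, h2w, h2L, h2len, h2nil, h2ind⟩ := hA2
    obtain ⟨W₁', hl, hi⟩ := exists_lift hadj.symm W₁ X₁ h1l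
    have hcA : c ∈ A := hCA hc
    -- incidences
    have hincC : ∀ x ∈ C, inc (W₁'.append W₂) x = inc W₁ x + (if x = c then 2 * X₁ else 0) := by
      intro x hx
      have hxv : x ≠ v := fun h => hvC (h ▸ hx)
      rw [inc_append, hi, if_neg hxv, h2a x (fun h => (mem_sdiff.mp h).2 hx) hxv]
      ring
    have hincD : ∀ x ∈ A \ C, inc (W₁'.append W₂) x = inc W₂ x := by
      intro x hx
      have hxC := (mem_sdiff.mp hx).2
      have hxv : x ≠ v := fun h => hv (h ▸ (mem_sdiff.mp hx).1)
      have hxc : x ≠ c := fun h => hxC (h ▸ hc)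
      rw [inc_append, hi, if_neg hxv, if_neg hxc, h1a x hxC]
      ring
    refine ⟨W₁'.append W₂, (X₁, G.degree c + inc W₁ c,
      (wt G C : ℤ) + 1 - 4 * X₁ - 2 * W₁.length) :: L₂, ?_, ?_, ?_, ?_, ?_, ?_, ?_, ?_⟩
    · intro u hu huv
      have huC : u ∉ C := fun h => hu (hCA h)
      have huc : u ≠ c := fun h => huC (h ▸ hc)
      rw [inc_append, hi, if_neg huv, if_neg huc, h1a u huC,
        h2a u (fun h => hu (mem_sdiff.mp h).1) huv]
    · rw [inc_append, hi, if_pos rfl, if_neg hvc, h1a v hvC, h2b]
      simp only [List.map_cons, List.sum_cons]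
      ring
    · intro a ha b hb hab
      by_cases haC : a ∈ C
      · have hbC : b ∈ C := hCcl a haC b hb hab
        rw [hincC a haC, hincC b hbC, ← add_assoc, ← add_assoc]
        exact h1p a haC b hbC hab
      · have hbC : b ∉ C := fun h => haC (hCcl b h a ha hab.symm)
        have ha' : a ∈ A \ C := mem_sdiff.mpr ⟨ha, haC⟩
        have hb' : b ∈ A \ C := mem_sdiff.mpr ⟨hb, hbC⟩
        rw [hincD a ha', hincD b hb']
        exact h2p a ha' b hb' hab
    · rw [SimpleGraph.Walk.length_append, hl, wt_split G hCA hCcl]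
      simp only [List.map_cons, List.sum_cons, List.length_cons]
      push_cast
      linarith
    · intro t ht
      rw [List.mem_cons] at ht
      rcases ht with rfl | ht
      · refine ⟨h1H, c, hcA, hadj.symm, ?_⟩
        simp only
        rw [hincC c hc, if_pos rfl]
        ring
      · obtain ⟨h1, c', hc', hadj', he⟩ := h2L t ht
        refine ⟨h1, c', (mem_sdiff.mp hc').1, hadj', ?_⟩
        rw [hincD c' hc', he]
    · have : nb G v A = nb G v C + nb G v (A \ C) := by
        conv_lhs => rw [← union_sdiff_of_subset hCA]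
        rw [nb_union G disjoint_sdiff]
      have h1 : 1 ≤ nb G v C := by
        unfold nb
        rw [Nat.succ_le_iff, card_pos]
        exact ⟨c, mem_filter.mpr ⟨hc, hadj.symm⟩⟩
      rw [List.length_cons]
      omega
    · intro h
      exact absurd h (by simp)
    · intro h
      simp only [List.map_cons, List.sum_cons] at h
      have hX0 : X₁ = 0 := by omega
      have hS0 : (L₂.map (fun t => t.1)).sum = 0 := by omega
      have hCc := h1C hX0
      intro a ha b hb hab
      by_cases haC : a ∈ C
      · have hbC : b ∈ C := hCcl a haC b hb hab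
        rw [hCc, mem_singleton] at haC hbC
        subst haC
        subst hbC
        exact G.irrefl hab
      · have hbC : b ∉ C := fun h => haC (hCcl b h a ha hab.symm)
        exact h2ind hS0 a (mem_sdiff.mpr ⟨ha, haC⟩) b (mem_sdiff.mpr ⟨hb, hbC⟩) hab

end Pool.Agent.Lib.MP_00d8cd_co
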