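import Mathlib

set_option autoImplicit false

/-!
# The numerical part of the amortised analysis of the greedy choice
-/

namespace Pool.Agent.Lib.MP_00d8cd_co

/-- The invariant kept for a processed branch: `X` is the number of back-and-forth traversals of
the edge above the top vertex of the branch, `y` is the degree of the top vertex without them, and
`P` is the (scaled) amount of unused budget. -/
structure H (X y : ℕ) (P : ℤ) : Prop where
  base : 2 ≤ P
  x0 : X = 0 → P = y + 1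
  x1 : X = 1 → 4 ≤ P
  y4 : y = 4 → 4 ≤ P
  y4x1 : y = 4 → X = 1 → 6 ≤ P
  y5 : y = 5 → 3 ≤ P
  y5x2 : y = 5 → X = 2 → 5 ≤ P
  y5x1 : y = 5 → X = 1 → 6 ≤ P
  y7 : y = 7 → 3 ≤ P
  y7x2 : y = 7 → X = 2 → 4 ≤ P

/-- No child. -/
theorem H_leaf {d : ℕ} (hd : 1 ≤ d) : H 0 d (d + 1) := by
  refine ⟨?_, ?_, ?_, ?_, ?_, ?_, ?_, ?_, ?_, ?_⟩ <;> intros <;> omega

/-- Not all of `1, …, r` are blocked. -/
theorem step_free {d r k X S : ℕ} {Q : ℤ} (hk : 1 ≤ k) (hkr : k ≤ r) (hd : r + 1 ≤ d)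
    (hQ : 2 * (k : ℤ) ≤ Q) (hS : S = 1 → 2 * (k : ℤ) + 2 ≤ Q)
    (hX : 1 ≤ X) (hX' : X ≤ r) :
    H X (d + 2 * S) (Q - k + d + 4 * r + 1 - 4 * X) := by
  refine ⟨?_, ?_, ?_, ?_, ?_, ?_, ?_, ?_, ?_, ?_⟩ <;> intros <;> omega

/-- One child, everything blocked. -/
theorem step_one {d r X X₁ y₁ j : ℕ} {P₁ : ℤ} (h₁ : H X₁ y₁ P₁) (hr : 1 ≤ r) (hd : r + 1 ≤ d)
    (hX : X = r + 1) (hj : 1 ≤ j) (hjr : j ≤ r) (hy : y₁ + 2 * X₁ = d + 2 * X₁ + 2 * j) :
    H X (d + 2 * X₁) (P₁ - 1 + d + 4 * r + 1 - 4 * X) := by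
  obtain rfl : y₁ = d + 2 * j := by omega
  subst hX
  refine ⟨?_, ?_, ?_, ?_, ?_, ?_, ?_, ?_, ?_, ?_⟩
  · have a := h₁.base
    have b := h₁.y4
    have c := h₁.y5
    have e := h₁.y7
    by_cases h : 4 ≤ d
    · omega
    · obtain h | h : d = 2 ∨ d = 3 := by omega
      · subst h; omega
      · subst h; omega
  · intro; omega
  · intro; omega
  · intro h
    have a := h₁.x0
    have b := h₁.y4x1
    obtain ⟨h1, h2⟩ | ⟨h1, h2⟩ : (d = 4 ∧ X₁ = 0) ∨ (d = 2 ∧ X₁ = 1) := by omega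
    · subst h1; subst h2; omega
    · subst h1; subst h2; omega
  · intros; omega
  · intro h
    have a := h₁.x1
    have b := h₁.base
    obtain ⟨h1, h2⟩ | ⟨h1, h2⟩ : (d = 5 ∧ X₁ = 0) ∨ (d = 3 ∧ X₁ = 1) := by omega
    · subst h1; subst h2; omega
    · subst h1; subst h2; omega
  · intro h h'
    have a := h₁.x0
    have b := h₁.y5x1
    obtain ⟨h1, h2⟩ | ⟨h1, h2⟩ : (d = 5 ∧ X₁ = 0) ∨ (d = 3 ∧ X₁ = 1) := by omega
    · subst h1; subst h2; omega
    · subst h1; subst h2; omega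
  · intros; omega
  · intro h
    have a := h₁.base
    have b := h₁.x1
    have c := h₁.y5x2
    have e := h₁.y7x2
    obtain ⟨h1, h2⟩ | ⟨h1, h2⟩ | ⟨h1, h2⟩ :
      (d = 7 ∧ X₁ = 0) ∨ (d = 5 ∧ X₁ = 1) ∨ (d = 3 ∧ X₁ = 2) := by omega
    · subst h1; subst h2; omega
    · subst h1; subst h2; omega
    · subst h1; subst h2; omega
  · intro h h'
    have a := h₁.base
    have b := h₁.x1
    have c := h₁.y5x2
    obtain ⟨h1, h2⟩ | ⟨h1, h2⟩ | ⟨h1, h2⟩ :
      (d = 7 ∧ X₁ = 0) ∨ (d = 5 ∧ X₁ = 1) ∨ (d = 3 ∧ X₁ = 2) := by omega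
    · subst h1; subst h2; omega
    · subst h1; subst h2; omega
    · subst h1; subst h2; omega

/-- At least two children, everything blocked. -/
theorem step_two {d r k X X₁ y₁ X₂ y₂ S j₁ j₂ : ℕ} {P₁ P₂ Q : ℤ} (h₁ : H X₁ y₁ P₁)
    (h₂ : H X₂ y₂ P₂) (hQ : 2 * (k : ℤ) ≤ Q) (hS : S = 1 → 2 * (k : ℤ) + 2 ≤ Q) (hk : k = 0 → S = 0)
    (hr : k + 2 ≤ r) (hd : r + 1 ≤ d) (hX : X = r + 1)
    (hj₁ : 1 ≤ j₁) (hjr₁ : j₁ ≤ r) (hy₁ : y₁ + 2 * X₁ = d + 2 * (X₁ + X₂ + S) + 2 * j₁)
    (hj₂ : 1 ≤ j₂) (hjr₂ : j₂ ≤ r) (hy₂ : y₂ + 2 * X₂ = d + 2 * (X₁ + X₂ + S) + 2 * j₂) :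
    H X (d + 2 * (X₁ + X₂ + S)) (P₁ + P₂ + Q - (k + 2) + d + 4 * r + 1 - 4 * X) := by
  subst hX
  have a1 := h₁.base
  have a2 := h₂.base
  refine ⟨?_, ?_, ?_, ?_, ?_, ?_, ?_, ?_, ?_, ?_⟩
  · omega
  · intro; omega
  · intro; omega
  · intro h
    have a := h₁.x0
    omega
  · intros; omega
  · intro h
    have b1 := h₁.x1
    have b2 := h₂.x1
    omega
  · intro h h'
    omega
  · intros; omega
  · intro h
    have b1 := h₁.x1
    have b2 := h₂.x1
    have c1 := h₁.x0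
    have c2 := h₂.x0
    by_cases h3 : d = 3
    · subst h3
      have : k = 0 := by omega
      subst this
      have := hk rfl
      subst this
      obtain ⟨h1, h2⟩ | ⟨h1, h2⟩ | ⟨h1, h2⟩ :
        (X₁ = 0 ∧ X₂ = 2) ∨ (X₁ = 1 ∧ X₂ = 1) ∨ (X₁ = 2 ∧ X₂ = 0) := by omega
      · subst h1; subst h2; omega
      · subst h1; subst h2; omega
      · subst h1; subst h2; omega
    · omega
  · intro h h'
    omega

/-- The least unblocked value. -/
theorem exists_least (B : Finset ℕ) (r y : ℕ) (hB : B.card ≤ r) :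
    ∃ X, 1 ≤ X ∧ X ≤ r + 1 ∧ y + 2 * X ∉ B ∧ (∀ j, 1 ≤ j → j < X → y + 2 * j ∈ B) ∧
      (X = r + 1 → ∀ b ∈ B, ∃ j, 1 ≤ j ∧ j ≤ r ∧ b = y + 2 * j) := by
  classical
  have hinj : Function.Injective (fun j : ℕ => y + 2 * j) := by
    intro a b h
    simp only at h
    omega
  have hex : ∃ X, 1 ≤ X ∧ y + 2 * X ∉ B ∧ X ≤ r + 1 := by
    by_contra hne
    push Not at hne
    have hsub : (Finset.Icc 1 (r + 1)).image (fun j : ℕ => y + 2 * j) ⊆ B := by
      intro b hb
      rw [Finset.mem_image] at hb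
      obtain ⟨j, hj, rfl⟩ := hb
      rw [Finset.mem_Icc] at hj
      by_contra hjB
      have := hne j hj.1 hjB
      omega
    have hc := Finset.card_le_card hsub
    rw [Finset.card_image_of_injective _ hinj, Nat.card_Icc] at hc
    omega
  have hex' : ∃ X, 1 ≤ X ∧ y + 2 * X ∉ B := by
    obtain ⟨X, h1, h2, _⟩ := hex
    exact ⟨X, h1, h2⟩
  refine ⟨Nat.find hex', (Nat.find_spec hex').1, ?_, (Nat.find_spec hex').2, ?_, ?_⟩
  · obtain ⟨X, h1, h2, h3⟩ := hex
    exact le_trans (Nat.find_min' hex' ⟨h1, h2⟩) h3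
  · intro j hj hj'
    by_contra hjB
    exact Nat.find_min hex' hj' ⟨hj, hjB⟩
  · intro hX b hb
    have hsub : (Finset.Icc 1 r).image (fun j : ℕ => y + 2 * j) ⊆ B := by
      intro b hb
      rw [Finset.mem_image] at hb
      obtain ⟨j, hj, rfl⟩ := hb
      rw [Finset.mem_Icc] at hj
      by_contra hjB
      have := Nat.find_min hex' (m := j) (by omega)
      exact this ⟨hj.1, hjB⟩
    have heq := Finset.eq_of_subset_of_card_le hsub (by
      rw [Finset.card_image_of_injective _ hinj, Nat.card_Icc]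
      omega)
    rw [← heq, Finset.mem_image] at hb
    obtain ⟨j, hj, rfl⟩ := hb
    rw [Finset.mem_Icc] at hj
    exact ⟨j, hj.1, hj.2, rfl⟩

theorem list_bound (L : List (ℕ × ℕ × ℤ)) (hL : ∀ t ∈ L, H t.1 t.2.1 t.2.2) :
    2 * (L.length : ℤ) ≤ (L.map (fun t => t.2.2)).sum ∧
    ((L.map (fun t => t.1)).sum = 1 → 2 * (L.length : ℤ) + 2 ≤ (L.map (fun t => t.2.2)).sum) := by
  induction L with
  | nil => simp
  | cons t L ih =>
    have ih' := ih (fun s hs => hL s (List.mem_cons_of_mem _ hs))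
    have ht := hL t List.mem_cons_self
    have h1 := ht.base
    have h2 := ht.x1
    simp only [List.length_cons, List.map_cons, List.sum_cons]
    push_cast
    constructor
    · omega
    · intro h
      omega

/-- The greedy step at the top vertex of a branch. -/
theorem step (L : List (ℕ × ℕ × ℤ)) (d r : ℕ) (B : Finset ℕ) (hB : B.card ≤ r) (hd : r + 1 ≤ d)
    (hL : ∀ t ∈ L, H t.1 t.2.1 t.2.2 ∧ t.2.1 + 2 * t.1 ∈ B) (hlen : L.length ≤ r)
    (hne : L = [] → r = 0) :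
    ∃ X, (L = [] → X = 0) ∧ (L ≠ [] → 1 ≤ X) ∧ d + 2 * (L.map (fun t => t.1)).sum + 2 * X ∉ B ∧
      H X (d + 2 * (L.map (fun t => t.1)).sum)
        ((L.map (fun t => t.2.2)).sum - L.length + d + 4 * r + 1 - 4 * X) := by
  match L, hL, hlen, hne with
  | [], _, _, hne =>
    have hr := hne rfl
    subst hr
    refine ⟨0, fun _ => rfl, fun h => absurd rfl h, ?_, ?_⟩
    · have : B = ∅ := by
        rw [← Finset.card_eq_zero]
        omega
      rw [this]
      simp
    · have := H_leaf (d := d) (by omega)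
      simpa using this
  | [t], hL, hlen, hne =>
    obtain ⟨X, h1, h2, h3, -, h4⟩ := exists_least B r (d + 2 * t.1) hB
    have ht := hL t List.mem_cons_self
    simp only [List.length_cons, List.length_nil] at hlen
    refine ⟨X, fun h => absurd h (by simp), fun _ => h1, ?_, ?_⟩
    · simpa using h3
    · simp only [List.map_cons, List.map_nil, List.sum_cons, List.sum_nil, add_zero,
        List.length_cons, List.length_nil]
      push_cast
      by_cases hX : X = r + 1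
      · obtain ⟨j, hj1, hj2, hj3⟩ := h4 hX _ ht.2
        have := step_one ht.1 (by omega) hd hX hj1 hj2 hj3
        simpa using this
      · have hx1 := ht.1.x1
        have := step_free (d := d) (r := r) (k := 1) (X := X) (S := t.1) (Q := t.2.2) le_rfl
          (by omega) hd (by have := ht.1.base; omega) (by intro h; have := hx1 h; omega) h1
          (by omega)
        simpa using this
  | t :: t' :: L, hL, hlen, hne =>
    obtain ⟨X, h1, h2, h3, -, h4⟩ := exists_least B r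
      (d + 2 * ((t :: t' :: L).map (fun t => t.1)).sum) hB
    have ht := hL t List.mem_cons_self
    have ht' := hL t' (List.mem_cons_of_mem _ List.mem_cons_self)
    refine ⟨X, fun h => absurd h (by simp), fun _ => h1, h3, ?_⟩
    by_cases hX : X = r + 1
    · have hb := list_bound L (fun s hs => (hL s (List.mem_cons_of_mem _
        (List.mem_cons_of_mem _ hs))).1)
      simp only [List.map_cons, List.sum_cons, List.length_cons] at h3 h4 hlen ⊢
      obtain ⟨j, hj1, hj2, hj3⟩ := h4 hX _ ht.2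
      obtain ⟨j', hj1', hj2', hj3'⟩ := h4 hX _ ht'.2
      have := step_two (d := d) (r := r) (k := L.length) (X := X)
        (S := (L.map (fun t => t.1)).sum) (Q := (L.map (fun t => t.2.2)).sum) ht.1 ht'.1 hb.1 hb.2
        (by intro h; rw [List.length_eq_zero_iff] at h; simp [h]) (by omega) hd hX hj1 hj2
        (by omega) hj1' hj2' (by omega)
      rw [← add_assoc t.1, ← add_assoc t.2.2]
      push_cast
      convert this using 2
      ring
    · have hb := list_bound (t :: t' :: L) (fun s hs => (hL s hs).1)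
      have := step_free (d := d) (r := r) (k := (t :: t' :: L).length) (X := X)
        (S := ((t :: t' :: L).map (fun t => t.1)).sum)
        (Q := ((t :: t' :: L).map (fun t => t.2.2)).sum) (by simp) hlen hd hb.1 hb.2 h1 (by omega)
      exact this

end Pool.Agent.Lib.MP_00d8cd_co
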