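import Pool.Agent.Lib.MP_00d8cd_co.Branches

set_option autoImplicit false
set_option linter.unusedSectionVars false

/-!
# The root of the search and the final walk
-/

namespace Pool.Agent.Lib.MP_00d8cd_co

open Finset

variable {V : Type*} [Fintype V] [DecidableEq V] {G : SimpleGraph V} [DecidableRel G.Adj]

theorem eq_univ_of_closed (hG : G.Connected) {K : Finset V} (hne : K.Nonempty)
    (hcl : ∀ u ∈ K, ∀ w, G.Adj u w → w ∈ K) (x : V) : x ∈ K := by
  obtain ⟨u, hu⟩ := hne
  obtain ⟨p⟩ := hG.preconnected u x
  induction p with
  | nil => exact hu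
  | cons h p ih => exact ih (hcl _ hu _ h)

/-- A vertex whose removal leaves the graph connected, with a neighbour of at least the same
degree. -/
theorem exists_root (hG : G.Connected) (hcard : 2 ≤ Fintype.card V) :
    ∃ r c, G.Adj r c ∧ G.degree r ≤ G.degree c ∧ Conn G (univ.erase r) := by
  classical
  let F : Finset (V × Finset V) := univ.filter (fun p => p.2.Nonempty ∧ p.1 ∉ p.2 ∧
    ∀ u ∈ p.2, ∀ w, G.Adj u w → w ∈ p.2 ∨ w = p.1)
  have hF : F.Nonempty := by
    obtain ⟨z, z', hz⟩ := Fintype.one_lt_card_iff.mp (by omega : 1 < Fintype.card V)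
    refine ⟨(z, univ.erase z), ?_⟩
    simp only [F, mem_filter, mem_univ, true_and]
    refine ⟨⟨z', by simp [hz.symm]⟩, by simp, ?_⟩
    intro u _ w _
    by_cases h : w = z
    · exact Or.inr h
    · exact Or.inl (by simp [h])
  obtain ⟨⟨z, K⟩, hzK, hmin⟩ := exists_min_image F (fun p => p.2.card) hF
  simp only [F, mem_filter, mem_univ, true_and, Prod.forall] at hzK hmin
  obtain ⟨hKne, hzK', hK⟩ := hzK
  have hconn : ∀ w ∈ K, Conn G (univ.erase w) := by
    intro w hw K' hK' hne hcl
    by_contra hneq
    -- a closed set avoiding `z`
    have key : ∀ M : Finset V, M.Nonempty → w ∉ M → z ∉ M →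
        ClosedIn G M (univ.erase w) → False := by
      intro M hM hwM hzM hMcl
      rcases (M ∩ K).eq_empty_or_nonempty with hMK | hMK
      · have hcl2 : ∀ u ∈ M, ∀ x, G.Adj u x → x ∈ M := by
          intro u hu x hux
          by_cases hxw : x = w
          · exfalso
            subst hxw
            rcases hK x hw u hux.symm with h | h
            · have : u ∈ M ∩ K := mem_inter.mpr ⟨hu, h⟩
              rw [hMK] at this
              exact absurd this (notMem_empty u)
            · subst h
              exact hzM hu
          · exact hMcl u hu x (by simp [hxw]) hux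
        exact hwM (eq_univ_of_closed hG hM hcl2 w)
      · have hlt : (M ∩ K).card < K.card := by
          apply card_lt_card
          rw [ssubset_iff_of_subset inter_subset_right]
          exact ⟨w, hw, fun h => hwM (mem_inter.mp h).1⟩
        have := hmin w (M ∩ K) ⟨hMK, fun h => hwM (mem_inter.mp h).1, by
          intro u hu x hux
          rw [mem_inter] at hu
          by_cases hxw : x = w
          · exact Or.inr hxw
          · left
            have hxM := hMcl u hu.1 x (by simp [hxw]) hux
            rw [mem_inter]
            refine ⟨hxM, ?_⟩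
            rcases hK u hu.2 x hux with h | h
            · exact h
            · subst h
              exact absurd hxM hzM⟩
        omega
    have hzw : z ≠ w := fun h => hzK' (h ▸ hw)
    have hwK' : w ∉ K' := fun h => by
      have := hK' h
      simp at this
    by_cases hzK' : z ∈ K'
    · apply key ((univ.erase w) \ K')
      · obtain ⟨x, hx, hx'⟩ : ∃ x ∈ univ.erase w, x ∉ K' := by
          by_contra hno
          push Not at hno
          exact hneq (Subset.antisymm hK' hno)
        exact ⟨x, mem_sdiff.mpr ⟨hx, hx'⟩⟩
      · simp
      · simp [hzK']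
      · intro u hu x hx hux
        rw [mem_sdiff] at hu ⊢
        refine ⟨hx, fun h => hu.2 (hcl x h u hu.1 hux.symm)⟩
    · exact key K' hne hwK' hzK' hcl
  obtain ⟨w, hw⟩ := hKne
  by_cases hex : ∃ w' ∈ K, G.Adj w w'
  · obtain ⟨w', hw', hadj⟩ := hex
    rcases le_total (G.degree w) (G.degree w') with h | h
    · exact ⟨w, w', hadj, h, hconn w hw⟩
    · exact ⟨w', w, hadj.symm, h, hconn w' hw'⟩
  · push Not at hex
    have hN : ∀ x, G.Adj w x → x = z := by
      intro x hx
      rcases hK w hw x hx with h | h
      · exact absurd hx (hex x h)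
      · exact h
    have hz : G.Adj w z := by
      by_contra hno
      have hcl : ∀ u ∈ ({w} : Finset V), ∀ x, G.Adj u x → x ∈ ({w} : Finset V) := by
        intro u hu x hux
        rw [mem_singleton] at hu
        subst hu
        exact absurd (hN x hux ▸ hux) hno
      have hzw := eq_univ_of_closed hG (singleton_nonempty w) hcl z
      rw [mem_singleton] at hzw
      exact hzK' (hzw ▸ hw)
    refine ⟨w, z, hz, ?_, hconn w hw⟩
    have h1 : G.degree w ≤ 1 := by
      rw [← SimpleGraph.card_neighborFinset_eq_degree, card_le_one]
      intro a ha b hb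
      rw [SimpleGraph.mem_neighborFinset] at ha hb
      rw [hN a ha, hN b hb]
    have h2 : 0 < G.degree z := by
      rw [SimpleGraph.degree_pos_iff_exists_adj]
      exact ⟨w, hz.symm⟩
    omega

theorem degree_eq_nb_add_one {u v : V} {A : Finset V} (hv : v ∉ A) (hadj : G.Adj u v)
    (hA : ∀ w, G.Adj u w → w ∈ A ∨ w = v) : G.degree u = nb G u A + 1 := by
  rw [← nb_insert_of_adj G hv hadj]
  unfold nb
  rw [← SimpleGraph.card_neighborFinset_eq_degree]
  congr 1
  ext w
  simp only [SimpleGraph.mem_neighborFinset, mem_filter, mem_insert]
  constructor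
  · intro h
    exact ⟨(hA w h).symm, h⟩
  · intro h
    exact h.2

theorem wt_univ : wt G univ = 6 * G.edgeFinset.card := by
  unfold wt
  have : ∀ u ∈ (univ : Finset V), G.degree u + 2 * nb G u univ = 3 * G.degree u := by
    intro u _
    have : nb G u univ = G.degree u := by
      unfold nb
      rw [← SimpleGraph.card_neighborFinset_eq_degree]
      congr 1
      ext w
      simp
    rw [this]
    ring
  rw [sum_congr rfl this, ← mul_sum, SimpleGraph.sum_degrees_eq_twice_card_edges]
  ring

theorem exists_walk (hG : G.Connected) (hcard : 3 ≤ Fintype.card V) :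
    ∃ (c : V) (W : G.Walk c c), (∀ a b, G.Adj a b → G.degree a + inc W a ≠ G.degree b + inc W b) ∧
      W.length ≤ 3 * (G.edgeFinset.card - 1) := by
  classical
  obtain ⟨r, c, hrc, hdeg, hconn⟩ := exists_root hG (by omega)
  have hcr : c ∈ univ.erase r := by simp [hrc.ne']
  have hne : c ≠ r := hrc.ne'
  set A := (univ.erase r).erase c with hA
  have hmemA : ∀ x, x ∈ A ↔ x ≠ c ∧ x ≠ r := by
    intro x
    simp [hA]
  have hcA : c ∉ A := fun h => ((hmemA c).mp h).1 rfl
  have hrA : r ∉ A := fun h => ((hmemA r).mp h).2 rfl
  have hAcard : A.card + 2 = Fintype.card V := by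
    rw [hA, card_erase_of_mem hcr, card_erase_of_mem (mem_univ r), card_univ]
    omega
  obtain ⟨W, L, ha, hb, hprop, hw, hL, hlen, hnil, hind⟩ :=
    attached_of_att A.card A c le_rfl hcA (att_erase hconn hcr)
  have hLne : L ≠ [] := by
    intro h
    have := hnil h
    rw [this, card_empty] at hAcard
    omega
  have hdc : G.degree c = nb G c A + 1 := by
    apply degree_eq_nb_add_one hrA hrc.symm
    intro w hw
    by_cases h : w = r
    · exact Or.inr h
    · exact Or.inl ((hmemA w).mpr ⟨hw.ne', h⟩)
  have hdr : G.degree r = nb G r A + 1 := by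
    apply degree_eq_nb_add_one hcA hrc
    intro w hw
    by_cases h : w = c
    · exact Or.inr h
    · exact Or.inl ((hmemA w).mpr ⟨h, hw.ne'⟩)
  have huniv : insert r (insert c A) = univ := by
    ext x
    simp only [mem_insert, mem_univ, iff_true, hmemA]
    tauto
  have hriA : r ∉ insert c A := by
    rw [mem_insert]
    rintro (h | h)
    · exact hne h.symm
    · exact hrA h
  have hwt : 6 * G.edgeFinset.card + 4 = wt G A + 5 * G.degree c + 5 * G.degree r := by
    rw [← wt_univ, ← huniv, wt_insert G hriA, wt_insert G hcA, nb_insert_of_adj G hcA hrc]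
    omega
  have hincr : inc W r = 0 := ha r hrA hne.symm
  by_cases hspec : G.degree c + inc W c = G.degree r
  · -- the exceptional case
    have hS : (L.map (fun t => t.1)).sum = 0 := by omega
    have hdd : G.degree c = G.degree r := by omega
    obtain ⟨t, ht⟩ := List.exists_mem_of_ne_nil L hLne
    obtain ⟨-, c', hc'A, hcc', -⟩ := hL t ht
    have hc'c : c' ≠ c := hcc'.ne'
    have hc'r : c' ≠ r := ((hmemA c').mp hc'A).2
    obtain ⟨W₁, hl₁, hi₁⟩ := exists_bf hcc' 1
    obtain ⟨W₂, hl₂, hi₂⟩ := exists_bf hrc.symm 2
    have hdA : ∀ a ∈ A, G.degree a ≤ 2 := by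
      intro a haA
      rw [← SimpleGraph.card_neighborFinset_eq_degree]
      have hsub : G.neighborFinset a ⊆ {r, c} := by
        intro x hx
        rw [SimpleGraph.mem_neighborFinset] at hx
        rw [mem_insert, mem_singleton]
        by_contra hno
        push Not at hno
        exact hind hS a haA x ((hmemA x).mpr ⟨hno.2, hno.1⟩) hx
      exact le_trans (card_le_card hsub) card_le_two
    have hdc2 : 2 ≤ G.degree c := by
      have h1 : 1 ≤ nb G c A := by
        unfold nb
        rw [Nat.succ_le_iff, card_pos]
        exact ⟨c', mem_filter.mpr ⟨hc'A, hcc'⟩⟩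
      omega
    have hDc : G.degree c + inc (W₁.append W₂) c = G.degree c + 6 := by
      rw [inc_append, hi₁, hi₂, if_pos rfl, if_neg hc'c.symm, if_pos rfl, if_neg hne]
    have hDr : G.degree r + inc (W₁.append W₂) r = G.degree r + 4 := by
      rw [inc_append, hi₁, hi₂, if_neg hne.symm, if_neg hc'r.symm, if_neg hne.symm, if_pos rfl]
    have hDA : ∀ a ∈ A, G.degree a + inc (W₁.append W₂) a ≤ 4 := by
      intro a haA
      have h1 := (hmemA a).mp haA
      have h2 := hdA a haA
      rw [inc_append, hi₁, hi₂, if_neg h1.1, if_neg h1.1, if_neg h1.2]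
      split_ifs <;> omega
    have hclass : ∀ x, x = c ∨ x = r ∨ x ∈ A := by
      intro x
      rw [hmemA]
      tauto
    refine ⟨c, W₁.append W₂, ?_, ?_⟩
    · intro a b hab
      rcases hclass a with rfl | rfl | haA <;> rcases hclass b with rfl | rfl | hbA
      · exact absurd hab (SimpleGraph.irrefl G)
      · rw [hDc, hDr]; omega
      · have := hDA b hbA
        rw [hDc]; omega
      · rw [hDc, hDr]; omega
      · exact absurd hab (SimpleGraph.irrefl G)
      · have := hDA b hbA
        rw [hDr]; omega
      · have := hDA a haA
        rw [hDc]; omega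
      · have := hDA a haA
        rw [hDr]; omega
      · exact absurd hab (hind hS a haA b hbA)
    · have hsum : G.degree r + (G.degree c + G.degree c') ≤ ∑ x, G.degree x := by
        have h1 : ∑ x ∈ ({r, c, c'} : Finset V), G.degree x ≤ ∑ x, G.degree x :=
          sum_le_sum_of_subset (subset_univ _)
        rw [sum_insert, sum_insert, sum_singleton] at h1
        · exact h1
        · rw [mem_singleton]
          exact hc'c.symm
        · rw [mem_insert, mem_singleton]
          rintro (h | h)
          · exact hne h.symm
          · exact hc'r h.symm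
      have hc'pos : 0 < G.degree c' := by
        rw [SimpleGraph.degree_pos_iff_exists_adj]
        exact ⟨c, hcc'.symm⟩
      rw [SimpleGraph.sum_degrees_eq_twice_card_edges] at hsum
      rw [SimpleGraph.Walk.length_append, hl₁, hl₂]
      omega
  · -- the main case
    set y := G.degree c + inc W c with hy
    set Bc := (A.filter (G.Adj c)).image (fun u => G.degree u + inc W u) with hBc
    set Br := (A.filter (G.Adj r)).image (fun u => G.degree u + inc W u) with hBr
    set B := (Bc.filter (fun b => y ≤ b)).image (fun b => b - y) ∪
      (Br.filter (fun b => G.degree r ≤ b)).image (fun b => b - G.degree r) with hB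
    have hBcard : B.card ≤ nb G c A + nb G r A := by
      refine le_trans (card_union_le _ _) (add_le_add ?_ ?_)
      · exact le_trans card_image_le (le_trans (card_filter_le _ _) card_image_le)
      · exact le_trans card_image_le (le_trans (card_filter_le _ _) card_image_le)
    obtain ⟨X, hX1, hX2, hXB, hXmin, -⟩ := exists_least B _ 0 hBcard
    rw [zero_add] at hXB
    have hXc : ∀ b ∈ A, G.Adj c b → y + 2 * X ≠ G.degree b + inc W b := by
      intro b hb hcb he
      apply hXB
      rw [hB, mem_union]
      left
      rw [mem_image]
      refine ⟨y + 2 * X, mem_filter.mpr ⟨?_, by omega⟩, by omega⟩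
      rw [hBc, he]
      exact mem_image_of_mem _ (mem_filter.mpr ⟨hb, hcb⟩)
    have hXr : ∀ b ∈ A, G.Adj r b → G.degree r + 2 * X ≠ G.degree b + inc W b := by
      intro b hb hcb he
      apply hXB
      rw [hB, mem_union]
      right
      rw [mem_image]
      refine ⟨G.degree r + 2 * X, mem_filter.mpr ⟨?_, by omega⟩, by omega⟩
      rw [hBr, he]
      exact mem_image_of_mem _ (mem_filter.mpr ⟨hb, hcb⟩)
    obtain ⟨W₂, hl₂, hi₂⟩ := exists_bf hrc.symm X
    have hDc : G.degree c + inc (W.append W₂) c = y + 2 * X := by
      rw [inc_append, hi₂, if_pos rfl, if_neg hne]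
      omega
    have hDr : G.degree r + inc (W.append W₂) r = G.degree r + 2 * X := by
      rw [inc_append, hi₂, if_neg hne.symm, if_pos rfl, hincr]
      omega
    have hDA : ∀ a ∈ A, G.degree a + inc (W.append W₂) a = G.degree a + inc W a := by
      intro a haA
      have h1 := (hmemA a).mp haA
      rw [inc_append, hi₂, if_neg h1.1, if_neg h1.2]
      omega
    have hclass : ∀ x, x = c ∨ x = r ∨ x ∈ A := by
      intro x
      rw [hmemA]
      tauto
    refine ⟨c, W.append W₂, ?_, ?_⟩
    · intro a b hab
      rcases hclass a with hac | har | haA <;> rcases hclass b with hbc | hbr | hbA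
      · rw [hac, hbc] at hab
        exact absurd hab (SimpleGraph.irrefl G)
      · rw [hac, hbr, hDc, hDr]; omega
      · rw [hac] at hab ⊢
        rw [hDc, hDA b hbA]
        exact hXc b hbA hab
      · rw [har, hbc, hDc, hDr]; omega
      · rw [har, hbr] at hab
        exact absurd hab (SimpleGraph.irrefl G)
      · rw [har] at hab ⊢
        rw [hDr, hDA b hbA]
        exact hXr b hbA hab
      · rw [hbc] at hab ⊢
        rw [hDc, hDA a haA]
        exact (hXc a haA hab.symm).symm
      · rw [hbr] at hab ⊢
        rw [hDr, hDA a haA]
        exact (hXr a haA hab.symm).symm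
      · rw [hDA a haA, hDA b hbA]
        exact hprop a haA b hbA hab
    · rw [SimpleGraph.Walk.length_append, hl₂]
      have hbd := (list_bound L (fun s hs => (hL s hs).1)).1
      have hk : 1 ≤ L.length := by
        rw [Nat.succ_le_iff, List.length_pos_iff]
        exact hLne
      suffices h : (4 * X : ℤ) + 9 ≤
          5 * G.degree c + 5 * G.degree r + ((L.map (fun t => t.2.2)).sum - L.length) by
        omega
      by_cases h4 : 4 ≤ G.degree c + G.degree r
      · omega
      · have hr1 : nb G r A = 0 := by omega
        have hc1 : nb G c A = 1 := by omega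
        by_cases hX : X = 1
        · omega
        · have hX2' : X = 2 := by omega
          have h2B := hXmin 1 le_rfl (by omega)
          match L, hL, hlen, hb, hw, hbd, hk, hLne with
          | [t], hL, hlen, hb, hw, hbd, hk, _ =>
            obtain ⟨hH, c', hc'A, hcc', he⟩ := hL t List.mem_cons_self
            rw [hB, mem_union] at h2B
            rcases h2B with h2B | h2B
            · rw [mem_image] at h2B
              obtain ⟨b, hb1, hb2⟩ := h2B
              rw [mem_filter] at hb1
              obtain ⟨hb1, hb3⟩ := hb1
              rw [hBc, mem_image] at hb1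
              obtain ⟨u, hu, rfl⟩ := hb1
              have hu' : u = c' := by
                have h1 : (A.filter (G.Adj c)).card ≤ 1 := by
                  unfold nb at hc1
                  omega
                rw [card_le_one] at h1
                exact h1 u hu c' (mem_filter.mpr ⟨hc'A, hcc'⟩)
              subst hu'
              simp only [List.map_cons, List.map_nil, List.sum_cons, List.sum_nil,
                List.length_cons, List.length_nil] at hb hw hbd ⊢
              have hy4 : t.2.1 = 4 := by omega
              have hP := hH.y4 hy4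
              push_cast
              omega
            · exfalso
              rw [mem_image] at h2B
              obtain ⟨b, hb1, hb2⟩ := h2B
              rw [mem_filter, hBr, mem_image] at hb1
              obtain ⟨⟨u, hu, _⟩, _⟩ := hb1
              unfold nb at hr1
              rw [card_eq_zero] at hr1
              rw [hr1] at hu
              exact absurd hu (notMem_empty u)
          | t :: t' :: L, hL, hlen, hb, hw, hbd, hk, _ =>
            simp only [List.length_cons] at hlen
            omega

end Pool.Agent.Lib.MP_00d8cd_co
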