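import Pool.Agent.Lib.MP_00d8cd_co.Numeric

set_option autoImplicit false

/-!
# Incidences of a walk with a vertex
-/

namespace Pool.Agent.Lib.MP_00d8cd_co

open Finset

variable {V : Type*} [DecidableEq V] {G : SimpleGraph V}

/-- The number of indices `i` such that the `i`-th edge of the walk contains `x`. -/
def inc {u v : V} (W : G.Walk u v) (x : V) : ℕ := W.edges.countP (fun e => decide (x ∈ e))

theorem inc_nil (u x : V) : inc (SimpleGraph.Walk.nil : G.Walk u u) x = 0 := by
  simp [inc]

theorem inc_append {u v w : V} (W : G.Walk u v) (W' : G.Walk v w) (x : V) :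
    inc (W.append W') x = inc W x + inc W' x := by
  simp [inc, SimpleGraph.Walk.edges_append, List.countP_append]

theorem inc_cons {u v w : V} (h : G.Adj u v) (W : G.Walk v w) (x : V) :
    inc (SimpleGraph.Walk.cons h W) x
      = inc W x + (if x = u then 1 else 0) + (if x = v then 1 else 0) := by
  have hne : u ≠ v := h.ne
  simp only [inc, SimpleGraph.Walk.edges_cons, List.countP_cons, Sym2.mem_iff, decide_eq_true_eq]
  by_cases h1 : x = u
  · subst h1
    simp [hne]
  · by_cases h2 : x = v
    · subst h2
      simp [hne.symm]
    · simp [h1, h2]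

/-- `n` back-and-forth traversals of the edge `v c`, starting at `v`. -/
theorem exists_bf {v c : V} (h : G.Adj v c) (n : ℕ) :
    ∃ W : G.Walk v v, W.length = 2 * n ∧ ∀ x, inc W x =
      (if x = v then 2 * n else 0) + (if x = c then 2 * n else 0) := by
  induction n with
  | zero => exact ⟨SimpleGraph.Walk.nil, by simp, fun x => by simp [inc_nil]⟩
  | succ n ih =>
    obtain ⟨W, h1, h2⟩ := ih
    refine ⟨SimpleGraph.Walk.cons h (SimpleGraph.Walk.cons h.symm W), ?_, ?_⟩
    · simp only [SimpleGraph.Walk.length_cons, h1]
      ring
    · intro x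
      rw [inc_cons, inc_cons, h2]
      split_ifs <;> omega

/-- Attach a closed walk at `c` to the vertex `v` with `2 X` traversals of the edge `v c`. -/
theorem exists_lift {v c : V} (h : G.Adj v c) (W : G.Walk c c) (X : ℕ)
    (hX : X = 0 → W.length = 0) :
    ∃ W' : G.Walk v v, W'.length = W.length + 2 * X ∧ ∀ x, inc W' x =
      inc W x + (if x = v then 2 * X else 0) + (if x = c then 2 * X else 0) := by
  cases X with
  | zero =>
    have h0 := hX rfl
    refine ⟨SimpleGraph.Walk.nil, by simp [h0], fun x => ?_⟩
    have : inc W x = 0 := by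
      have : W.edges = [] := by
        rw [← List.length_eq_zero_iff, SimpleGraph.Walk.length_edges]
        exact h0
      simp [inc, this]
    simp [inc_nil, this]
  | succ n =>
    obtain ⟨W₂, h1, h2⟩ := exists_bf h n
    refine ⟨(SimpleGraph.Walk.cons h (W.append (SimpleGraph.Walk.cons h.symm
      SimpleGraph.Walk.nil))).append W₂, ?_, ?_⟩
    · simp only [SimpleGraph.Walk.length_cons, SimpleGraph.Walk.length_append, h1,
        SimpleGraph.Walk.length_nil]
      ring
    · intro x
      rw [inc_append, inc_cons, inc_append, inc_cons, inc_nil, h2]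
      split_ifs <;> omega

end Pool.Agent.Lib.MP_00d8cd_co
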